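import Mathlib

/-!
# Real quadratic fields: the two real embeddings
-/

open NumberField

namespace Pool.Agent.Lib_helper58.NB

variable {K : Type} [Field K] [NumberField K]

lemma indep_pair {x : K} (hx : ∀ q : ℚ, algebraMap ℚ K q ≠ x) (s t : ℚ)
    (h : (s : K) + (t : K) * x = 0) : s = 0 ∧ t = 0 := by
  have ht : t = 0 := by
    by_contra ht
    have htK : (t : K) ≠ 0 := by exact_mod_cast ht
    apply hx (-s / t)
    rw [eq_ratCast]
    push_cast
    rw [div_eq_iff htK]
    linear_combination -h
  subst ht
  refine ⟨?_, rfl⟩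
  have : (s : K) = 0 := by simpa using h
  exact_mod_cast this

lemma decomp (h2 : Module.finrank ℚ K = 2) {x : K}
    (hx : ∀ q : ℚ, algebraMap ℚ K q ≠ x) (y : K) :
    ∃ a b : ℚ, y = (a : K) + (b : K) * x := by
  have hli : LinearIndependent ℚ ![(1 : K), x] := by
    rw [LinearIndependent.pair_iff]
    intro s t h
    apply indep_pair hx s t
    have := h
    simp only [Rat.smul_def] at this
    simpa using this
  have htop := hli.span_eq_top_of_card_eq_finrank' (by simp [h2])
  have hy : y ∈ Submodule.span ℚ (Set.range ![(1 : K), x]) := by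
    rw [htop]; trivial
  rw [Matrix.range_cons, Matrix.range_cons, Matrix.range_empty, Set.union_empty,
    Set.singleton_union, Submodule.mem_span_pair] at hy
  obtain ⟨a, b, hab⟩ := hy
  refine ⟨a, b, ?_⟩
  rw [← hab]
  simp only [Rat.smul_def]
  ring

/-- A totally real field has a real embedding. -/
lemma exists_real [IsTotallyReal K] : Nonempty (K →+* ℝ) := by
  obtain ⟨v⟩ := (inferInstance : Nonempty (InfinitePlace K))
  exact ⟨InfinitePlace.embedding_of_isReal (IsTotallyReal.isReal v)⟩

/-- the two embeddings -/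
lemma exists_pair [IsTotallyReal K] (h2 : Module.finrank ℚ K = 2) {th : K} {D : ℕ}
    (hth : th ^ 2 = (D : K)) (hnot : ∀ q : ℚ, algebraMap ℚ K q ≠ th) :
    ∃ φ ψ : K →+* ℝ, ψ th = - φ th := by
  obtain ⟨φ⟩ := exists_real (K := K)
  refine ⟨φ, ?_⟩
  set s : ℝ := φ th with hs
  have hs2 : s ^ 2 = (D : ℝ) := by
    rw [hs, ← map_pow, hth]; simp
  classical
  choose f g hfg using decomp h2 hnot
  have huniq : ∀ (y : K) (c d : ℚ), y = (c : K) + (d : K) * th → f y = c ∧ g y = d := by
    intro y c d hy
    have h := indep_pair hnot (f y - c) (g y - d) (by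
      push_cast
      linear_combination hy - hfg y)
    constructor
    · linarith [h.1]
    · linarith [h.2]
  refine ⟨{ toFun := fun y => (f y : ℝ) - (g y : ℝ) * s
            map_one' := ?_
            map_mul' := ?_
            map_zero' := ?_
            map_add' := ?_ }, ?_⟩
  · obtain ⟨h1, h3⟩ := huniq 1 1 0 (by simp)
    simp [h1, h3]
  · intro y z
    obtain ⟨h1, h3⟩ := huniq (y * z) (f y * f z + D * (g y * g z)) (f y * g z + g y * f z) (by
      push_cast
      conv_lhs => rw [hfg y, hfg z]
      linear_combination ((g y : K) * (g z : K)) * hth)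
    simp only [h1, h3]
    push_cast
    linear_combination (-(g y : ℝ) * (g z : ℝ)) * hs2
  · obtain ⟨h1, h3⟩ := huniq 0 0 0 (by simp)
    simp [h1, h3]
  · intro y z
    obtain ⟨h1, h3⟩ := huniq (y + z) (f y + f z) (g y + g z) (by
      push_cast
      linear_combination hfg y + hfg z)
    simp only [h1, h3]
    push_cast
    ring
  · obtain ⟨h1, h3⟩ := huniq th 0 1 (by simp)
    simp [h1, h3]

/-- a rational number which is an algebraic integer is an integer -/
lemma int_of_rat {q : ℚ} (h : IsIntegral ℤ (q : K)) : ∃ z : ℤ, (z : ℚ) = q := by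
  have h1 : IsIntegral ℤ q := by
    rw [← eq_ratCast (algebraMap ℚ K) q] at h
    exact (isIntegral_algebraMap_iff (algebraMap ℚ K).injective).mp h
  obtain ⟨z, hz⟩ := IsIntegrallyClosed.isIntegral_iff.mp h1
  exact ⟨z, by simpa using hz⟩

end Pool.Agent.Lib_helper58.NB
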