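import Mathlib
import Pool.Agent.Lib_helper76.UL.Core

/-!
# The neighbour of the unit lattice of rank five at the vector `(a, b, 1, 1, th)`
-/

open NumberField TensorProduct Pool.Agent.Lib_helper76.UL

namespace Pool.Agent.Lib_helper58.NB

/-- The data: `th ^ 2 = D`, a prime `p`, integers `a`, `b` with `a ^ 2 + b ^ 2 + 2 + D`
divisible by `p ^ 2`. -/
structure Dat (K : Type) [Field K] where
  th : K
  D : ℕ
  p : ℕ
  a : ℤ
  b : ℤ
  k : ℤ
  hth : th ^ 2 = (D : K)
  hp : p.Prime
  hp7 : 7 < p
  hk : a ^ 2 + b ^ 2 + 2 + D = p ^ 2 * k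
  ha : ¬ (p : ℤ) ∣ a
  hb : ¬ (p : ℤ) ∣ b
  hD : ¬ p ∣ D

section
variable {K : Type} [Field K]

lemma natInt (n : ℕ) : IsIntegral ℤ (n : K) := by
  simpa using (isIntegral_algebraMap (R := ℤ) (A := K) (x := (n : ℤ)))

lemma intInt (n : ℤ) : IsIntegral ℤ (n : K) := by
  simpa using (isIntegral_algebraMap (R := ℤ) (A := K) (x := n))

/-- the vector `(a, b, 1, 1, th)` -/
def Dat.v (d : Dat K) : Fin 5 → K := ![(d.a : K), (d.b : K), 1, 1, d.th]

lemma Dat.thInt (d : Dat K) : IsIntegral ℤ d.th := by
  refine IsIntegral.of_pow (n := 2) (by norm_num) ?_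
  rw [d.hth]
  exact natInt d.D

lemma Dat.vInt (d : Dat K) (i : Fin 5) : IsIntegral ℤ (d.v i) := by
  fin_cases i
  · exact intInt d.a
  · exact intInt d.b
  · exact isIntegral_one
  · exact isIntegral_one
  · exact d.thInt

lemma Dat.vv (d : Dat K) : ∑ i, d.v i * d.v i = (d.p : K) ^ 2 * (d.k : K) := by
  have h : ((d.a ^ 2 + d.b ^ 2 + 2 + d.D : ℤ) : K) = ((d.p ^ 2 * d.k : ℤ) : K) := by rw [d.hk]
  push_cast at h
  simp only [Dat.v, Fin.sum_univ_five, Matrix.cons_val]
  linear_combination h + d.hth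

variable [NumberField K]

lemma Dat.pne (d : Dat K) : (d.p : K) ≠ 0 := by exact_mod_cast d.hp.ne_zero

/-- The neighbour lattice. -/
def modu (d : Dat K) : Submodule (𝓞 K) (Fin 5 → K) where
  carrier := {y | (∃ c : 𝓞 K, ∀ i, IsIntegral ℤ (y i - (c : K) * d.v i / d.p)) ∧
    IsIntegral ℤ ((∑ i, y i * d.v i) / d.p)}
  add_mem' := by
    rintro y z ⟨⟨c, hc⟩, h1⟩ ⟨⟨e, he⟩, h2⟩
    refine ⟨⟨c + e, fun i => ?_⟩, ?_⟩
    · have : (y + z) i - ((c + e : 𝓞 K) : K) * d.v i / d.p
          = (y i - (c : K) * d.v i / d.p) + (z i - (e : K) * d.v i / d.p) := by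
        simp only [Pi.add_apply, RingOfIntegers.coe_eq_algebraMap, map_add]
        ring
      rw [this]
      exact (hc i).add (he i)
    · have : (∑ i, (y + z) i * d.v i) / (d.p : K)
          = (∑ i, y i * d.v i) / d.p + (∑ i, z i * d.v i) / d.p := by
        simp only [Pi.add_apply, add_mul, Finset.sum_add_distrib]
        ring
      rw [this]
      exact h1.add h2
  zero_mem' := by
    refine ⟨⟨0, fun i => ?_⟩, ?_⟩
    · simp [isIntegral_zero]
    · simp [isIntegral_zero]
  smul_mem' := by
    rintro s y ⟨⟨c, hc⟩, h1⟩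
    have hs : IsIntegral ℤ (s : K) := RingOfIntegers.isIntegral_coe s
    refine ⟨⟨s * c, fun i => ?_⟩, ?_⟩
    · have : (s • y) i - ((s * c : 𝓞 K) : K) * d.v i / d.p
          = (s : K) * (y i - (c : K) * d.v i / d.p) := by
        simp only [Pi.smul_apply, Algebra.smul_def, RingOfIntegers.coe_eq_algebraMap, map_mul]
        ring
      rw [this]
      exact hs.mul (hc i)
    · have : (∑ i, (s • y) i * d.v i) / (d.p : K) = (s : K) * ((∑ i, y i * d.v i) / d.p) := by
        simp only [Pi.smul_apply, Algebra.smul_def, RingOfIntegers.coe_eq_algebraMap, mul_assoc,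
          ← Finset.mul_sum]
        ring
      rw [this]
      exact hs.mul h1

lemma form_int (d : Dat K) (y z : modu d) : IsIntegral ℤ (∑ i, y.1 i * z.1 i) := by
  obtain ⟨⟨c, hc⟩, h1⟩ := y.2
  obtain ⟨⟨e, he⟩, h2⟩ := z.2
  have h : ∑ i, y.1 i * z.1 i
      = ∑ i, (y.1 i - (c : K) * d.v i / d.p) * (z.1 i - (e : K) * d.v i / d.p)
        + (e : K) * ((∑ i, y.1 i * d.v i) / d.p - (c : K) * (d.k : K))
        + (c : K) * ((∑ i, z.1 i * d.v i) / d.p) := by
    have hvv := d.vv
    have hp := d.pne
    have hk : (d.k : K) = (∑ i, d.v i * d.v i) / (d.p : K) ^ 2 := by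
      rw [hvv]; field_simp
    rw [hk]
    simp only [Fin.sum_univ_five]
    field_simp
    ring
  rw [h]
  refine ((IsIntegral.sum _ fun i _ => (hc i).mul (he i)).add ?_).add ?_
  · exact (RingOfIntegers.isIntegral_coe e).mul
      (h1.sub ((RingOfIntegers.isIntegral_coe c).mul (intInt d.k)))
  · exact (RingOfIntegers.isIntegral_coe c).mul h2

/-- The form: the standard dot product. -/
noncomputable def form (d : Dat K) : LinearMap.BilinForm (𝓞 K) (modu d) :=
  LinearMap.mk₂ (𝓞 K) (fun y z => (⟨∑ i, y.1 i * z.1 i, form_int d y z⟩ : 𝓞 K))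
    (by intro a b c; apply RingOfIntegers.ext; simp [add_mul, Finset.sum_add_distrib])
    (by intro a b c; apply RingOfIntegers.ext
        simp [Algebra.smul_def, Finset.mul_sum, mul_assoc])
    (by intro a b c; apply RingOfIntegers.ext; simp [mul_add, Finset.sum_add_distrib])
    (by intro a b c; apply RingOfIntegers.ext
        simp [Algebra.smul_def, Finset.mul_sum, mul_left_comm])

lemma form_apply (d : Dat K) (y z : modu d) :
    ((form d y z : 𝓞 K) : K) = ∑ i, y.1 i * z.1 i := rfl

lemma p_int (d : Dat K) (y : modu d) (i : Fin 5) : IsIntegral ℤ ((d.p : K) * y.1 i) := by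
  obtain ⟨⟨c, hc⟩, h1⟩ := y.2
  have hp := d.pne
  have : (d.p : K) * y.1 i = (d.p : K) * (y.1 i - (c : K) * d.v i / d.p) + (c : K) * d.v i := by
    field_simp
    ring
  rw [this]
  exact ((natInt d.p).mul (hc i)).add ((RingOfIntegers.isIntegral_coe c).mul (d.vInt i))

/-- multiplication by `p`, to the integral vectors -/
noncomputable def toO (d : Dat K) : modu d →ₗ[𝓞 K] (Fin 5 → 𝓞 K) where
  toFun y := fun i => ⟨(d.p : K) * y.1 i, p_int d y i⟩
  map_add' a b := by
    funext i; apply RingOfIntegers.ext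
    exact mul_add (d.p : K) (a.1 i) (b.1 i)
  map_smul' c a := by funext i; apply RingOfIntegers.ext; simp [Algebra.smul_def]; ring

lemma toO_inj (d : Dat K) : Function.Injective (toO d) := by
  intro y z h
  apply Subtype.ext
  funext i
  have h1 : (d.p : K) * y.1 i = (d.p : K) * z.1 i :=
    congrArg (fun g : Fin 5 → 𝓞 K => (g i : K)) h
  exact mul_left_cancel₀ d.pne h1

lemma mem_of_p (d : Dat K) (x : Fin 5 → 𝓞 K) : (fun i => (d.p : K) * (x i : K)) ∈ modu d := by
  refine ⟨⟨0, fun i => ?_⟩, ?_⟩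
  · simp only [RingOfIntegers.coe_eq_algebraMap, map_zero, zero_mul, zero_div, sub_zero]
    exact (natInt d.p).mul (RingOfIntegers.isIntegral_coe (x i))
  · have hp := d.pne
    have : (∑ i, (d.p : K) * (x i : K) * d.v i) / (d.p : K) = ∑ i, (x i : K) * d.v i := by
      simp only [mul_assoc, ← Finset.mul_sum]
      field_simp
    rw [this]
    exact IsIntegral.sum _ fun i _ => (RingOfIntegers.isIntegral_coe (x i)).mul (d.vInt i)

/-- multiplication by `p`, from the integral vectors -/
noncomputable def ofO (d : Dat K) : (Fin 5 → 𝓞 K) →ₗ[𝓞 K] modu d where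
  toFun x := ⟨fun i => (d.p : K) * (x i : K), mem_of_p d x⟩
  map_add' a b := by apply Subtype.ext; funext i; simp [mul_add]
  map_smul' c a := by apply Subtype.ext; funext i; simp [Algebra.smul_def]; ring

lemma ofO_inj (d : Dat K) : Function.Injective (ofO d) := by
  intro y z h
  funext i
  have h1 : (d.p : K) * (y i : K) = (d.p : K) * (z i : K) :=
    congrArg (fun g : modu d => g.1 i) h
  exact RingOfIntegers.ext (mul_left_cancel₀ d.pne h1)

lemma fin_modu (d : Dat K) : Module.Finite (𝓞 K) (modu d) :=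
  Module.Finite.of_injective (toO d) (toO_inj d)

lemma isLat (d : Dat K) : IsLattice K (modu d) (form d) := by
  refine ⟨fin_modu d, ?_, ?_⟩
  · intro x y
    apply RingOfIntegers.ext
    rw [form_apply, form_apply]
    exact Finset.sum_congr rfl fun i _ => mul_comm _ _
  · intro x hx φ
    rw [form_apply, map_sum]
    obtain ⟨i, hi⟩ : ∃ i, x.1 i ≠ 0 := by
      by_contra hcon
      push Not at hcon
      exact hx (Subtype.ext (funext hcon))
    apply Finset.sum_pos'
    · intro j _
      rw [map_mul]; exact mul_self_nonneg _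
    · refine ⟨i, Finset.mem_univ i, ?_⟩
      rw [map_mul]
      exact mul_self_pos.mpr (by rwa [Ne, map_eq_zero])

lemma rk_le_of_inj {L M : Type} [AddCommGroup L] [Module (𝓞 K) L] [AddCommGroup M]
    [Module (𝓞 K) M] [Module.Finite (𝓞 K) L] (f : M →ₗ[𝓞 K] L) (hf : Function.Injective f) :
    rk K M ≤ rk K L := by
  unfold rk
  have h1 : Function.Injective (f.baseChange K) := by
    rw [LinearMap.baseChange_eq_ltensor]
    exact Module.Flat.lTensor_preserves_injective_linearMap f hf
  exact LinearMap.finrank_le_finrank_of_injective h1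

lemma rk_modu (d : Dat K) : rk K (modu d) = 5 := by
  have h5 : rk K (Fin 5 → 𝓞 K) = 5 := rk_dot K 5
  have := fin_modu d
  exact le_antisymm ((rk_le_of_inj (toO d) (toO_inj d)).trans h5.le)
    (h5.ge.trans (rk_le_of_inj (ofO d) (ofO_inj d)))

/-- `v / p` -/
noncomputable def vp (d : Dat K) : modu d :=
  ⟨fun i => d.v i / d.p, ⟨1, fun i => by
      simp only [RingOfIntegers.coe_eq_algebraMap, map_one, one_mul, sub_self]
      exact isIntegral_zero⟩, by
    have hp := d.pne
    have : (∑ i, d.v i / (d.p : K) * d.v i) / (d.p : K) = (d.k : K) := by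
      have hvv := d.vv
      have h1 : (∑ i, d.v i / (d.p : K) * d.v i) = (∑ i, d.v i * d.v i) / (d.p : K) := by
        rw [Finset.sum_div]
        exact Finset.sum_congr rfl fun i _ => by ring
      rw [h1, hvv]
      field_simp
    rw [this]
    exact intInt d.k⟩

/-- `e_i - v_i e_2` -/
noncomputable def ev (d : Dat K) (i : Fin 5) : modu d :=
  ⟨fun j => (if j = i then 1 else 0) - (if j = 2 then d.v i else 0), ⟨0, fun j => by
      simp only [RingOfIntegers.coe_eq_algebraMap, map_zero, zero_mul, zero_div, sub_zero]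
      split_ifs
      · exact isIntegral_one.sub (d.vInt i)
      · exact isIntegral_one.sub isIntegral_zero
      · exact isIntegral_zero.sub (d.vInt i)
      · exact isIntegral_zero.sub isIntegral_zero⟩, by
    have h2 : d.v 2 = 1 := rfl
    have : (∑ j, ((if j = i then (1 : K) else 0) - (if j = 2 then d.v i else 0)) * d.v j) = 0 := by
      simp only [sub_mul, Finset.sum_sub_distrib, ite_mul, one_mul, zero_mul, Finset.sum_ite_eq',
        Finset.mem_univ, if_true, h2, mul_one, sub_self]
    rw [this, zero_div]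
    exact isIntegral_zero⟩

lemma unimodular (d : Dat K) : Unimodular K (form d) := by
  intro f
  have hp := d.pne
  set g : Fin 5 → 𝓞 K := fun i => f (ofO d (Pi.single i 1)) with hg
  have hlin : ∀ z : modu d, ((f z : 𝓞 K) : K) = ∑ i, (g i : K) / d.p * z.1 i := by
    intro z
    have h1 : ((d.p : 𝓞 K) * (d.p : 𝓞 K)) • z
        = ∑ i, (toO d z i) • ofO d (Pi.single i 1) := by
      apply Subtype.ext
      funext j
      rw [Submodule.coe_smul, Pi.smul_apply, AddSubmonoidClass.coe_finsetSum, Finset.sum_apply]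
      simp only [Submodule.coe_smul, Pi.smul_apply, Algebra.smul_def]
      rw [Finset.sum_eq_single j]
      · simp [toO, ofO]
        ring
      · intro i _ hij
        simp [ofO, Pi.single_eq_of_ne hij.symm]
      · simp
    have h2 := congrArg (fun z => ((f z : 𝓞 K) : K)) h1
    simp only [map_smul, smul_eq_mul, map_sum] at h2
    simp only [map_mul, map_natCast] at h2
    have h3 : ∀ i, algebraMap (𝓞 K) K (toO d z i) * algebraMap (𝓞 K) K (f (ofO d (Pi.single i 1)))
        = (d.p : K) * z.1 i * (g i : K) := by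
      intro i
      rfl
    simp only [h3] at h2
    have h4 : (d.p : K) * d.p * ∑ i, (g i : K) / d.p * z.1 i
        = ∑ i, (d.p : K) * z.1 i * (g i : K) := by
      rw [Finset.mul_sum]
      exact Finset.sum_congr rfl fun i _ => by field_simp
    apply mul_left_cancel₀ (mul_ne_zero hp hp)
    rw [h4, ← h2]
  refine ⟨⟨fun i => (g i : K) / d.p, ⟨g 2, fun i => ?_⟩, ?_⟩, ?_⟩
  · have h1 := hlin (ev d i)
    have h2 : ∑ j, (g j : K) / d.p * (ev d i).1 j = (g i : K) / d.p - (g 2 : K) * d.v i / d.p := by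
      simp only [ev, mul_sub, Finset.sum_sub_distrib, mul_ite, mul_one, mul_zero,
        Finset.sum_ite_eq', Finset.mem_univ, if_true]
      ring
    rw [h2] at h1
    show IsIntegral ℤ ((g i : K) / d.p - (g 2 : K) * d.v i / d.p)
    rw [← h1]
    exact RingOfIntegers.isIntegral_coe _
  · have h1 := hlin (vp d)
    have h2 : ∑ j, (g j : K) / d.p * (vp d).1 j = (∑ j, (g j : K) / d.p * d.v j) / d.p := by
      rw [Finset.sum_div]
      exact Finset.sum_congr rfl fun j _ => by simp only [vp]; ring
    rw [h2] at h1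
    show IsIntegral ℤ ((∑ j, (g j : K) / d.p * d.v j) / d.p)
    rw [← h1]
    exact RingOfIntegers.isIntegral_coe _
  · intro x
    apply RingOfIntegers.ext
    rw [form_apply, hlin x]

end

end Pool.Agent.Lib_helper58.NB
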