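import Mathlib
import Pool.Agent.Lib_helper58.NB.Lat
import Pool.Agent.Lib_helper58.NB.Emb

/-!
# Short vectors of the neighbour lattice, indecomposability, non-isometry
-/

open NumberField TensorProduct Pool.Agent.Lib_helper76.UL

namespace Pool.Agent.Lib_helper58.NB

section
variable {K : Type} [Field K] [NumberField K]

lemma short {th : K} {D : ℕ} (hth : th ^ 2 = (D : K)) (φ ψ : K →+* ℝ) (hψ : ψ th = - φ th)
    (y : Fin 5 → K) (m : ℕ) (r s : Fin 5 → ℤ) (hy : ∀ i, (m : K) * y i = r i + s i * th)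
    (B : ℕ) (hφB : φ (∑ i, y i * y i) ≤ B) (hψB : ψ (∑ i, y i * y i) ≤ B)
    (hB : m ^ 2 * B < D) : ∀ i, s i = 0 := by
  set t : ℝ := φ th with ht
  have ht2 : t ^ 2 = (D : ℝ) := by
    rw [ht, ← map_pow, hth]; simp
  have h0 : (m : K) ^ 2 * ∑ i, y i * y i = ∑ i, (r i + s i * th) * (r i + s i * th) := by
    rw [Finset.mul_sum]
    refine Finset.sum_congr rfl fun i _ => ?_
    rw [← hy i]; ring
  have h1 : (m : ℝ) ^ 2 * φ (∑ i, y i * y i) = ∑ i, ((r i : ℝ) + s i * t) * (r i + s i * t) := by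
    have := congrArg φ h0
    simpa [map_sum] using this
  have h2 : (m : ℝ) ^ 2 * ψ (∑ i, y i * y i)
      = ∑ i, ((r i : ℝ) + s i * (-t)) * (r i + s i * (-t)) := by
    have := congrArg ψ h0
    simpa [map_sum, hψ] using this
  have h3 : ∑ i, ((r i : ℝ) + s i * t) * (r i + s i * t)
      + ∑ i, ((r i : ℝ) + s i * (-t)) * (r i + s i * (-t))
      = 2 * ∑ i, (r i : ℝ) ^ 2 + 2 * D * ∑ i, (s i : ℝ) ^ 2 := by
    rw [← Finset.sum_add_distrib, Finset.mul_sum, Finset.mul_sum, ← Finset.sum_add_distrib]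
    refine Finset.sum_congr rfl fun i _ => ?_
    rw [← ht2]; ring
  have h4 : (0 : ℝ) ≤ ∑ i, (r i : ℝ) ^ 2 := Finset.sum_nonneg fun i _ => sq_nonneg _
  have h5 : (D : ℝ) * ∑ i, (s i : ℝ) ^ 2 ≤ (m : ℝ) ^ 2 * B := by
    have h6 : (m : ℝ) ^ 2 * φ (∑ i, y i * y i) ≤ (m : ℝ) ^ 2 * B :=
      mul_le_mul_of_nonneg_left hφB (sq_nonneg _)
    have h7 : (m : ℝ) ^ 2 * ψ (∑ i, y i * y i) ≤ (m : ℝ) ^ 2 * B :=
      mul_le_mul_of_nonneg_left hψB (sq_nonneg _)
    rw [h1] at h6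
    rw [h2] at h7
    linarith
  have hBr : (m : ℝ) ^ 2 * B < D := by exact_mod_cast hB
  have hD0 : (0 : ℝ) < D := lt_of_le_of_lt (by positivity) hBr
  have h8 : ∑ i, (s i : ℝ) ^ 2 < 1 := by
    by_contra hcon
    push Not at hcon
    nlinarith
  have h9 : ∑ i, (s i) ^ 2 < 1 := by exact_mod_cast h8
  intro i
  have h10 : (s i) ^ 2 ≤ ∑ i, (s i) ^ 2 :=
    Finset.single_le_sum (f := fun i => (s i) ^ 2) (fun j _ => sq_nonneg _) (Finset.mem_univ i)
  have h11 : (s i) ^ 2 ≤ 0 := by omega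
  exact pow_eq_zero_iff (two_ne_zero) |>.mp (le_antisymm h11 (sq_nonneg _))

lemma dvd_of_two (p : ℕ) (hp : p.Prime) (hp7 : 7 < p) {x y : ℤ} (h : 2 * x = p * y) :
    (p : ℤ) ∣ x := by
  have h1 : (p : ℤ) ∣ 2 * x := ⟨y, h⟩
  have hp' : Prime (p : ℤ) := Nat.prime_iff_prime_int.mp hp
  rcases hp'.dvd_or_dvd h1 with h2 | h2
  · exfalso
    have := Int.le_of_dvd (by norm_num) h2
    omega
  · exact h2

lemma ratl (d : Dat K) (hq : ∀ z : K, IsIntegral ℤ z → ∃ r s : ℤ, 2 * z = r + s * d.th)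
    (hnot : ∀ q : ℚ, algebraMap ℚ K q ≠ d.th) (y : modu d) (q : Fin 5 → ℚ)
    (hy : ∀ i, y.1 i = (q i : K)) : ∃ z : Fin 5 → ℤ, ∀ i, y.1 i = (z i : K) := by
  have hp := d.pne
  have hpq : (d.p : ℚ) ≠ 0 := by exact_mod_cast d.hp.ne_zero
  have hz : ∀ i, ∃ z : ℤ, (z : ℚ) = d.p * q i := fun i => int_of_rat (K := K) (by
    push_cast
    rw [← hy]; exact p_int d y i)
  choose z hz using hz
  obtain ⟨⟨c, hc⟩, h1⟩ := y.2
  have h2 := hc 2
  have h4 := hc 4
  have hv2 : d.v 2 = 1 := rfl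
  have hv4 : d.v 4 = d.th := rfl
  have hw := h4.sub (h2.mul d.thInt)
  obtain ⟨r, s, hrs⟩ := hq _ hw
  rw [hv2, hv4, hy 2, hy 4] at hrs
  obtain ⟨h5, h6⟩ := indep_pair hnot (2 * q 4 - r) (-2 * q 2 - s) (by
    push_cast
    linear_combination hrs)
  have h7 : 2 * z 2 = d.p * (-s) := by
    have : (2 * (z 2 : ℚ)) = d.p * (-s) := by
      rw [hz 2]
      linear_combination (-(d.p : ℚ)) * h6
    exact_mod_cast this
  obtain ⟨w, hw2⟩ := dvd_of_two d.p d.hp d.hp7 h7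
  have hq2 : q 2 = w := by
    have h8 : (z 2 : ℚ) = d.p * w := by rw [hw2]; push_cast; ring
    rw [hz 2] at h8
    exact mul_left_cancel₀ hpq h8
  have he : IsIntegral ℤ ((c : K) / d.p) := by
    have h9 : (c : K) / d.p = (w : K) - (y.1 2 - (c : K) * d.v 2 / d.p) := by
      rw [hv2, hy 2, hq2]; push_cast; ring
    rw [h9]
    exact (intInt w).sub h2
  have hint : ∀ i, ∃ z : ℤ, (z : ℚ) = q i := fun i => int_of_rat (K := K) (by
    rw [← hy]
    have h9 : y.1 i = (y.1 i - (c : K) * d.v i / d.p) + ((c : K) / d.p) * d.v i := by ring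
    rw [h9]
    exact (hc i).add (he.mul (d.vInt i)))
  choose z' hz' using hint
  refine ⟨z', fun i => ?_⟩
  rw [hy i, ← hz' i]
  push_cast
  rfl

/-- `p e_i` -/
noncomputable def pe (d : Dat K) (i : Fin 5) : modu d := ofO d (Pi.single i 1)

lemma pe_apply (d : Dat K) (i j : Fin 5) : (pe d i).1 j = if j = i then (d.p : K) else 0 := by
  simp only [pe, ofO]
  by_cases h : j = i
  · subst h; simp
  · simp [Pi.single_eq_of_ne h, h]

lemma form_pe (d : Dat K) (y : modu d) (j : Fin 5) :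
    ((form d y (pe d j) : 𝓞 K) : K) = (d.p : K) * y.1 j := by
  rw [form_apply]
  simp only [pe_apply, mul_ite, mul_zero, Finset.sum_ite_eq', Finset.mem_univ, if_true]
  ring

/-- a vector of a lattice of norm at most `p2 ^ 2` in both embeddings has integer coordinates -/
lemma short_int (d : Dat K) (hq : ∀ z : K, IsIntegral ℤ z → ∃ r s : ℤ, 2 * z = r + s * d.th)
    (hnot : ∀ q : ℚ, algebraMap ℚ K q ≠ d.th) (φ ψ : K →+* ℝ) (hψ : ψ d.th = - φ d.th)
    (p2 : ℕ) (hbig : 4 * d.p ^ 2 * p2 ^ 2 < d.D) (y : modu d)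
    (h1 : φ (form d y y : 𝓞 K) ≤ (p2 : ℝ) ^ 2) (h2 : ψ (form d y y : 𝓞 K) ≤ (p2 : ℝ) ^ 2) :
    ∃ z : Fin 5 → ℤ, ∀ i, y.1 i = (z i : K) := by
  have h3 : ∀ i, ∃ r s : ℤ, 2 * ((d.p : K) * y.1 i) = r + s * d.th := fun i => hq _ (p_int d y i)
  choose r s hrs using h3
  rw [form_apply] at h1 h2
  have h4 := short d.hth φ ψ hψ y.1 (2 * d.p) r s (by
    intro i
    rw [← hrs i]; push_cast; ring) (p2 ^ 2) (by push_cast; exact h1) (by push_cast; exact h2) (by
    calc (2 * d.p) ^ 2 * p2 ^ 2 = 4 * d.p ^ 2 * p2 ^ 2 := by ring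
      _ < d.D := hbig)
  have hp := d.pne
  refine ratl d hq hnot y (fun i => (r i : ℚ) / (2 * d.p)) fun i => ?_
  have h5 := hrs i
  rw [h4 i] at h5
  push_cast at h5 ⊢
  rw [eq_div_iff (mul_ne_zero two_ne_zero hp)]
  linear_combination h5

lemma form_nonneg (d : Dat K) (y : modu d) (φ : K →+* ℝ) : 0 ≤ φ (form d y y : 𝓞 K) := by
  rw [form_apply, map_sum]
  exact Finset.sum_nonneg fun i _ => by rw [map_mul]; exact mul_self_nonneg _

/-- the components of `p e_i` in an orthogonal decomposition have integer coordinates -/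
lemma comp_int (d : Dat K) (hq : ∀ z : K, IsIntegral ℤ z → ∃ r s : ℤ, 2 * z = r + s * d.th)
    (hnot : ∀ q : ℚ, algebraMap ℚ K q ≠ d.th) (φ ψ : K →+* ℝ) (hψ : ψ d.th = - φ d.th)
    (hbig : 4 * d.p ^ 4 < d.D) (i : Fin 5) (u w : modu d) (huw : pe d i = u + w)
    (ho : form d u w = 0) : ∃ z : Fin 5 → ℤ, ∀ i, u.1 i = (z i : K) := by
  have ho' : form d w u = 0 := by rw [(isLat d).symm, ho]
  have h1 : form d (pe d i) (pe d i) = form d u u + form d w w := by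
    rw [huw]
    simp only [map_add, LinearMap.add_apply, ho, ho']
    ring
  have h2 : ((form d (pe d i) (pe d i) : 𝓞 K) : K) = (d.p : K) ^ 2 := by
    rw [form_pe, pe_apply]; simp; ring
  have h3 : (d.p : K) ^ 2 = ((form d u u : 𝓞 K) : K) + ((form d w w : 𝓞 K) : K) := by
    rw [← h2, h1]
    simp
  have h4 : ∀ φ : K →+* ℝ, φ (form d u u : 𝓞 K) ≤ (d.p : ℝ) ^ 2 := by
    intro φ
    have h5 := congrArg φ h3
    rw [map_add, map_pow, map_natCast] at h5
    have := form_nonneg d w φ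
    linarith
  exact short_int d hq hnot φ ψ hψ d.p (by
    calc 4 * d.p ^ 2 * d.p ^ 2 = 4 * d.p ^ 4 := by ring
      _ < d.D := hbig) u (h4 φ) (h4 ψ)

end

end Pool.Agent.Lib_helper58.NB
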