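import Mathlib
import Pool.Agent.Lib_helper58.NB.Args

/-!
# The neighbour lattice is indecomposable
-/

open NumberField TensorProduct Pool.Agent.Lib_helper76.UL

namespace Pool.Agent.Lib_helper58.NB

section
variable {K : Type} [Field K] [NumberField K]

/-- the rational part of `v` -/
def Dat.v1 (d : Dat K) : Fin 5 → ℤ := ![d.a, d.b, 1, 1, 0]

/-- the irrational part of `v` -/
def v2 : Fin 5 → ℤ := ![0, 0, 0, 0, 1]

omit [NumberField K] in
lemma Dat.v_eq (d : Dat K) (i : Fin 5) : d.v i = (d.v1 i : K) + (v2 i : K) * d.th := by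
  fin_cases i <;> simp [Dat.v, Dat.v1, v2]

omit [NumberField K] in
lemma Dat.v1_not (d : Dat K) (i : Fin 5) (hi : i ≠ 4) : ¬ (d.p : ℤ) ∣ d.v1 i := by
  have h7 := d.hp7
  have h1 : ¬ (d.p : ℤ) ∣ 1 := by
    intro h
    have := Int.le_of_dvd (by norm_num) h
    omega
  fin_cases i
  · exact d.ha
  · exact d.hb
  · exact h1
  · exact h1
  · exact absurd rfl hi

omit [NumberField K] in
lemma Dat.N_not (d : Dat K) : ¬ (d.p : ℤ) ∣ ∑ i, d.v1 i * d.v1 i := by
  intro h
  have h1 : ∑ i, d.v1 i * d.v1 i = d.p * (d.p * d.k) - d.D := by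
    have := d.hk
    simp only [Dat.v1, Fin.sum_univ_five, Matrix.cons_val]
    linear_combination this
  rw [h1] at h
  have h2 : (d.p : ℤ) ∣ d.D := by
    have h3 : (d.p : ℤ) ∣ d.p * (d.p * d.k) := Dvd.intro _ rfl
    have h4 := dvd_sub h3 h
    rwa [sub_sub_cancel] at h4
  exact d.hD (by exact_mod_cast h2)

/-- a vector of integers orthogonal to `v` lies in the lattice -/
noncomputable def ofZ (d : Dat K) (m : Fin 5 → ℤ) (hm : ∑ i, (m i : K) * d.v i = 0) : modu d :=
  ⟨fun i => (m i : K), ⟨0, fun i => by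
    simp only [RingOfIntegers.coe_eq_algebraMap, map_zero, zero_mul, zero_div, sub_zero]
    exact intInt (m i)⟩, by
    rw [hm, zero_div]
    exact isIntegral_zero⟩

/-- projections through the matrix -/
lemma mul_A (d : Dat K) (P Q : Submodule (𝓞 K) (modu d))
    (ho : ∀ x ∈ P, ∀ y ∈ Q, form d x y = 0) (A : Fin 5 → modu d) (hA : ∀ i, A i ∈ P)
    (hA' : ∀ i, pe d i - A i ∈ Q) (y u w : modu d) (hy : y = u + w) (hu : u ∈ P) (hw : w ∈ Q)
    (j : Fin 5) : (d.p : K) * u.1 j = ∑ k, y.1 k * (A j).1 k := by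
  have h1 : form d u (pe d j) = form d y (A j) := by
    have h2 : form d u (pe d j - A j) = 0 := ho u hu _ (hA' j)
    have h3 : form d w (A j) = 0 := by rw [(isLat d).symm]; exact ho _ (hA j) w hw
    rw [map_sub, sub_eq_zero] at h2
    rw [h2, hy, map_add, LinearMap.add_apply, h3, add_zero]
  have h4 := congrArg (fun z : 𝓞 K => (z : K)) h1
  simp only [form_apply] at h4
  rw [← h4, ← form_apply, form_pe]

lemma half (d : Dat K) (hq : ∀ z : K, IsIntegral ℤ z → ∃ r s : ℤ, 2 * z = r + s * d.th)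
    (hnot : ∀ q : ℚ, algebraMap ℚ K q ≠ d.th) (P Q : Submodule (𝓞 K) (modu d))
    (ho : ∀ x ∈ P, ∀ y ∈ Q, form d x y = 0) (htop : ∀ y, ∃ u ∈ P, ∃ w ∈ Q, y = u + w)
    (A : Fin 5 → modu d) (hA : ∀ i, A i ∈ P) (hA' : ∀ i, pe d i - A i ∈ Q)
    (a : Fin 5 → Fin 5 → ℤ) (ha : ∀ i j, (A i).1 j = (a i j : K)) (h44 : a 4 4 = 0) :
    P = ⊥ := by
  have hp := d.pne
  have hpZ : (d.p : ℤ) ≠ 0 := by exact_mod_cast d.hp.ne_zero
  have hprime : Prime (d.p : ℤ) := Nat.prime_iff_prime_int.mp d.hp
  -- symmetry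
  have hsym : ∀ i j, a i j = a j i := by
    intro i j
    have h1 := mul_A d P Q ho A hA hA' (pe d i) (A i) (pe d i - A i) (by abel) (hA i) (hA' i) j
    simp only [pe_apply, ite_mul, zero_mul, Finset.sum_ite_eq', Finset.mem_univ, if_true, ha] at h1
    exact_mod_cast mul_left_cancel₀ hp h1
  have hsq : ∀ i j, (d.p : ℤ) * a i j = ∑ k, a i k * a j k := by
    intro i j
    have h1 := mul_A d P Q ho A hA hA' (A i) (A i) 0 (by rw [add_zero]) (hA i) Q.zero_mem j
    simp only [ha] at h1
    exact_mod_cast h1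
  have h4 : ∀ k, a 4 k = 0 := by
    have h1 := hsq 4 4
    rw [h44, mul_zero] at h1
    intro k
    have h2 := (Finset.sum_eq_zero_iff_of_nonneg (s := Finset.univ)
      (f := fun k => a 4 k * a 4 k) (fun i _ => mul_self_nonneg _)).mp h1.symm k (Finset.mem_univ k)
    exact mul_self_eq_zero.mp h2
  have h4' : ∀ k, a k 4 = 0 := fun k => by rw [hsym, h4]
  -- the projection of v / p
  obtain ⟨u, hu, w, hw, huw⟩ := htop (vp d)
  have hpu : ∀ j, (d.p : K) * (d.p * u.1 j) = ((∑ k, a j k * d.v1 k : ℤ) : K) := by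
    intro j
    rw [mul_A d P Q ho A hA hA' (vp d) u w huw hu hw j, Finset.mul_sum]
    push_cast
    refine Finset.sum_congr rfl fun k _ => ?_
    rw [ha]
    show (d.p : K) * (d.v k / d.p * (a j k : K)) = _
    rw [d.v_eq k]
    by_cases hk : k = 4
    · subst hk
      rw [h4']; simp
    · have hv2 : v2 k = 0 := by
        fin_cases k <;> first | rfl | exact absurd rfl hk
      rw [hv2]
      push_cast
      field_simp
      ring
  have hcop : IsCoprime (d.p : ℤ) (d.D : ℤ) := by
    rw [Nat.isCoprime_iff_coprime]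
    exact (Nat.Prime.coprime_iff_not_dvd d.hp).mpr d.hD
  have hU : ∀ j, ∃ U : ℤ, u.1 j = (U : K) := by
    obtain ⟨⟨c, hc⟩, -⟩ := u.2
    have hu4 : u.1 4 = 0 := by
      have h1 := hpu 4
      have h2 : (∑ k, a 4 k * d.v1 k : ℤ) = 0 := Finset.sum_eq_zero fun k _ => by rw [h4, zero_mul]
      rw [h2, Int.cast_zero] at h1
      rcases mul_eq_zero.mp h1 with h | h
      · exact absurd h hp
      · rcases mul_eq_zero.mp h with h | h
        · exact absurd h hp
        · exact h
    have hc4 := hc 4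
    have hv4 : d.v 4 = d.th := rfl
    rw [hu4, hv4, zero_sub] at hc4
    have hcth : IsIntegral ℤ ((c : K) * d.th / d.p) := by
      have := hc4.neg
      rwa [neg_neg] at this
    have hcD : IsIntegral ℤ ((c : K) * d.D / d.p) := by
      have h1 := hcth.mul d.thInt
      have h2 : (c : K) * d.th / d.p * d.th = (c : K) * d.D / d.p := by
        rw [← d.hth]; ring
      rwa [h2] at h1
    obtain ⟨x, y, hxy⟩ := hcop
    have he : IsIntegral ℤ ((c : K) / d.p) := by
      have h1 : ((x * d.p + y * d.D : ℤ) : K) = 1 := by rw [hxy]; simp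
      push_cast at h1
      have h2 : (c : K) / d.p = (x : K) * (c : K) + (y : K) * ((c : K) * d.D / d.p) := by
        have h3 : (c : K) / d.p = ((x : K) * d.p + (y : K) * d.D) * ((c : K) / d.p) := by
          rw [h1, one_mul]
        rw [h3]
        field_simp
      rw [h2]
      exact ((intInt x).mul (RingOfIntegers.isIntegral_coe c)).add ((intInt y).mul hcD)
    intro j
    have h1 : IsIntegral ℤ (u.1 j) := by
      have h9 : u.1 j = (u.1 j - (c : K) * d.v j / d.p) + ((c : K) / d.p) * d.v j := by ring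
      rw [h9]
      exact (hc j).add (he.mul (d.vInt j))
    have h2 : u.1 j = (((∑ k, a j k * d.v1 k : ℤ) / (d.p * d.p) : ℚ) : K) := by
      have h3 := hpu j
      push_cast at h3 ⊢
      rw [← h3]
      field_simp
    rw [h2] at h1
    obtain ⟨z, hz⟩ := int_of_rat h1
    exact ⟨z, by rw [h2, ← hz]; push_cast; rfl⟩
  choose U hU using hU
  have hal : ∀ j, (∑ k, a j k * d.v1 k : ℤ) = d.p * (d.p * U j) := by
    intro j
    have h1 := hpu j
    rw [hU j] at h1
    exact_mod_cast h1.symm
  -- the other columns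
  have hcol : ∀ i j, (d.p : ℤ) ∣ a j i := by
    intro i j
    by_cases hi : i = 4
    · subst hi
      rw [h4' j]; exact dvd_zero _
    · set N : ℤ := ∑ i, d.v1 i * d.v1 i with hN
      have hNK : (N : K) = ∑ k, (d.v1 k : K) * (d.v1 k : K) := by rw [hN]; push_cast; rfl
      set m : Fin 5 → ℤ := fun k => (if k = i then N else 0) - d.v1 i * d.v1 k with hm
      have hv4 : d.v1 4 = 0 := rfl
      have hm0 : ∑ k, (m k : K) * d.v k = 0 := by
        have h1 : ∀ k, (d.v1 k : K) * d.v k = (d.v1 k : K) * (d.v1 k : K) := by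
          intro k
          by_cases hk : k = 4
          · subst hk
            rw [hv4]; simp
          · have hv2 : v2 k = 0 := by
              fin_cases k <;> first | rfl | exact absurd rfl hk
            rw [d.v_eq k, hv2]; simp
        have h2 : ∀ k, (m k : K) * d.v k
            = (if k = i then (N : K) * d.v k else 0) - (d.v1 i : K) * ((d.v1 k : K) * d.v k) := by
          intro k
          simp only [hm]
          split_ifs with h
          · push_cast; ring
          · push_cast; ring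
        simp only [h2, h1, Finset.sum_sub_distrib, Finset.sum_ite_eq', Finset.mem_univ, if_true,
          ← Finset.mul_sum, ← hNK]
        have hv2 : v2 i = 0 := by
          fin_cases i <;> first | rfl | exact absurd rfl hi
        rw [d.v_eq i, hv2]
        push_cast
        ring
      obtain ⟨u', hu', w', hw', huw'⟩ := htop (ofZ d m hm0)
      have h5 : ∀ j, (d.p : K) * u'.1 j = ((∑ k, m k * a j k : ℤ) : K) := by
        intro j
        rw [mul_A d P Q ho A hA hA' _ u' w' huw' hu' hw' j]
        push_cast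
        exact Finset.sum_congr rfl fun k _ => by rw [ha]; rfl
      obtain ⟨z, hz⟩ := ratl d hq hnot u' (fun j => (∑ k, m k * a j k : ℤ) / (d.p : ℚ)) (by
        intro j
        have h6 := h5 j
        push_cast at h6 ⊢
        rw [eq_div_iff hp]
        linear_combination h6)
      have h7 : (d.p : ℤ) * z j = ∑ k, m k * a j k := by
        have h6 := h5 j
        rw [hz j] at h6
        exact_mod_cast h6
      have h8 : ∑ k, m k * a j k = N * a j i - d.v1 i * (d.p * (d.p * U j)) := by
        rw [← hal j, Finset.mul_sum]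
        have h9 : ∀ k, m k * a j k
            = (if k = i then N * a j k else 0) - d.v1 i * (a j k * d.v1 k) := by
          intro k
          simp only [hm]
          split_ifs with h
          · ring
          · ring
        simp only [h9, Finset.sum_sub_distrib, Finset.sum_ite_eq', Finset.mem_univ, if_true]
      have h10 : (d.p : ℤ) ∣ N * a j i := ⟨z j + d.v1 i * (d.p * U j), by
        rw [h8] at h7
        linear_combination -h7⟩
      rcases hprime.dvd_or_dvd h10 with h11 | h11
      · exact absurd h11 d.N_not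
      · exact h11
  have hpi : ∀ i j, ∃ t : ℤ, a i j = d.p * t := fun i j => by
    obtain ⟨t, ht⟩ := hcol j i
    exact ⟨t, ht⟩
  choose t ht using hpi
  have htsq : ∀ i, t i i = ∑ k, t i k * t i k := by
    intro i
    have h1 := hsq i i
    have h2 : ∑ k, a i k * a i k = d.p * (d.p * ∑ k, t i k * t i k) := by
      rw [Finset.mul_sum, Finset.mul_sum]
      exact Finset.sum_congr rfl fun k _ => by rw [ht i k]; ring
    rw [h2, ht i i] at h1
    exact mul_left_cancel₀ hpZ (mul_left_cancel₀ hpZ h1)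
  have hzero : ∀ i k, t i k = 0 := by
    intro i
    have h1 := htsq i
    have h2 : t i i * t i i ≤ ∑ k, t i k * t i k :=
      Finset.single_le_sum (f := fun k => t i k * t i k) (fun k _ => mul_self_nonneg _)
        (Finset.mem_univ i)
    rw [← h1] at h2
    have h3 : 0 ≤ t i i := by nlinarith [mul_self_nonneg (t i i)]
    have h4'' : t i i ≤ 1 := by nlinarith
    have h5 : t i i = 0 ∨ t i i = 1 := by omega
    rcases h5 with h5 | h5
    · intro k
      rw [h5] at h1
      have h6 := (Finset.sum_eq_zero_iff_of_nonneg (s := Finset.univ)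
        (f := fun k => t i k * t i k) (fun i _ => mul_self_nonneg _)).mp h1.symm k
        (Finset.mem_univ k)
      exact mul_self_eq_zero.mp h6
    · exfalso
      -- the row is p e_i
      have hi : i ≠ 4 := by
        rintro rfl
        have := ht 4 4
        rw [h44, h5] at this
        exact hpZ (by linarith)
      have h6 : ∀ k, k ≠ i → t i k = 0 := by
        intro k hk
        have h7 : ∑ k ∈ Finset.univ.erase i, t i k * t i k = 0 := by
          have h8 := Finset.add_sum_erase Finset.univ (fun k => t i k * t i k) (Finset.mem_univ i)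
          rw [← h1] at h8
          have h10 : t i i * t i i = 1 := by rw [h5]; norm_num
          linarith
        have h9 := (Finset.sum_eq_zero_iff_of_nonneg (s := Finset.univ.erase i)
          (f := fun k => t i k * t i k) (fun i _ => mul_self_nonneg _)).mp h7 k
          (Finset.mem_erase.mpr ⟨hk, Finset.mem_univ k⟩)
        exact mul_self_eq_zero.mp h9
      have h7 := hal i
      rw [Finset.sum_eq_single i (fun k _ hk => by rw [ht i k, h6 k hk]; ring)
        (fun h => absurd (Finset.mem_univ i) h), ht i i, h5] at h7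
      have h8 : d.v1 i = d.p * U i := by
        apply mul_left_cancel₀ hpZ
        linear_combination h7
      exact d.v1_not i hi ⟨U i, h8⟩
  rw [eq_bot_iff]
  intro y hy
  rw [Submodule.mem_bot]
  apply Subtype.ext
  funext j
  have h1 := mul_A d P Q ho A hA hA' y y 0 (by rw [add_zero]) hy Q.zero_mem j
  have h2 : ∑ k, y.1 k * (A j).1 k = 0 := Finset.sum_eq_zero fun k _ => by
    rw [ha, ht, hzero]; simp
  rw [h2] at h1
  rcases mul_eq_zero.mp h1 with h | h
  · exact absurd h hp
  · exact h

theorem indec (d : Dat K) (hq : ∀ z : K, IsIntegral ℤ z → ∃ r s : ℤ, 2 * z = r + s * d.th)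
    (hnot : ∀ q : ℚ, algebraMap ℚ K q ≠ d.th) (φ ψ : K →+* ℝ) (hψ : ψ d.th = - φ d.th)
    (hbig : 4 * d.p ^ 4 < d.D) : Indec K (form d) := by
  have hp := d.pne
  have hpZ : (d.p : ℤ) ≠ 0 := by exact_mod_cast d.hp.ne_zero
  have hpos : (0 : ℤ) < d.p := by exact_mod_cast d.hp.pos
  refine ⟨⟨⟨pe d 0, 0, ?_⟩⟩, ?_⟩
  · intro h
    have h1 := congrArg (fun y : modu d => y.1 0) h
    simp only [pe_apply, if_true] at h1
    exact hp h1
  · intro P Q ho hPQ
    have htop : ∀ y : modu d, ∃ u ∈ P, ∃ w ∈ Q, y = u + w := by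
      intro y
      have : y ∈ P ⊔ Q := by rw [hPQ]; trivial
      obtain ⟨u, hu, w, hw, h⟩ := Submodule.mem_sup.mp this
      exact ⟨u, hu, w, hw, h.symm⟩
    have ho' : ∀ x ∈ Q, ∀ y ∈ P, form d x y = 0 := by
      intro x hx y hy
      rw [(isLat d).symm]; exact ho y hy x hx
    choose A hA B hB hAB using fun i => htop (pe d i)
    have hAB' : ∀ i, pe d i - A i = B i := fun i => by rw [hAB i]; abel
    have hBA' : ∀ i, pe d i - B i = A i := fun i => by rw [hAB i]; abel
    have hAi : ∀ i, ∃ z : Fin 5 → ℤ, ∀ j, (A i).1 j = (z j : K) := fun i =>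
      comp_int d hq hnot φ ψ hψ hbig i (A i) (B i) (hAB i) (ho _ (hA i) _ (hB i))
    have hBi : ∀ i, ∃ z : Fin 5 → ℤ, ∀ j, (B i).1 j = (z j : K) := fun i =>
      comp_int d hq hnot φ ψ hψ hbig i (B i) (A i) (by rw [hAB i]; abel) (ho' _ (hB i) _ (hA i))
    choose a ha using hAi
    choose b hb using hBi
    -- a 4 4 + b 4 4 = p
    have hab : a 4 4 + b 4 4 = d.p := by
      have h1 := congrArg (fun y : modu d => y.1 4) (hAB 4)
      simp only [pe_apply, if_true] at h1
      have h2 : (A 4 + B 4).1 4 = (A 4).1 4 + (B 4).1 4 := rfl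
      rw [h2, ha, hb] at h1
      exact_mod_cast h1.symm
    -- p divides the column 4 of a
    have hsym : ∀ i j, a i j = a j i := by
      intro i j
      have h1 := mul_A d P Q ho A hA (fun i => by rw [hAB' i]; exact hB i) (pe d i) (A i) (B i)
        (hAB i) (hA i) (hB i) j
      simp only [pe_apply, ite_mul, zero_mul, Finset.sum_ite_eq', Finset.mem_univ, if_true, ha]
        at h1
      exact_mod_cast mul_left_cancel₀ hp h1
    have hsq : (d.p : ℤ) * a 4 4 = ∑ k, a 4 k * a 4 k := by
      have h1 := mul_A d P Q ho A hA (fun i => by rw [hAB' i]; exact hB i) (A 4) (A 4) 0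
        (by rw [add_zero]) (hA 4) Q.zero_mem 4
      simp only [ha] at h1
      exact_mod_cast h1
    obtain ⟨u, hu, w, hw, huw⟩ := htop (vp d)
    have hdvd : ∀ j, ∃ t : ℤ, a j 4 = d.p * t := by
      intro j
      have h1 := mul_A d P Q ho A hA (fun i => by rw [hAB' i]; exact hB i) (vp d) u w huw hu hw j
      obtain ⟨r, s, hrs⟩ := hq _ (p_int d u j)
      have h2 : (d.p : K) * ∑ k, (vp d).1 k * (A j).1 k
          = ((∑ k, a j k * d.v1 k : ℤ) : K) + (a j 4 : K) * d.th := by
        rw [Finset.mul_sum]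
        have h3 : ∀ k, (d.p : K) * ((vp d).1 k * (A j).1 k)
            = (a j k : K) * (d.v1 k : K) + (a j k : K) * (v2 k : K) * d.th := by
          intro k
          rw [ha]
          show (d.p : K) * (d.v k / d.p * (a j k : K)) = _
          rw [d.v_eq k]
          field_simp
        simp only [h3, Finset.sum_add_distrib]
        push_cast
        congr 1
        simp [v2, Fin.sum_univ_five]
      rw [← h1] at h2
      obtain ⟨h5, h6⟩ := indep_pair hnot ((d.p : ℚ) * r - 2 * ((∑ k, a j k * d.v1 k : ℤ) : ℚ))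
        ((d.p : ℚ) * s - 2 * a j 4) (by
          push_cast at h2 ⊢
          linear_combination (-(d.p : K)) * hrs + 2 * h2)
      have h7 : 2 * a j 4 = d.p * s := by
        have : (2 * (a j 4 : ℚ)) = d.p * s := by linear_combination -h6
        exact_mod_cast this
      exact dvd_of_two d.p d.hp d.hp7 h7
    choose t ht using hdvd
    have ht4 : t 4 = ∑ k, t k * t k := by
      have h2 : ∑ k, a 4 k * a 4 k = d.p * (d.p * ∑ k, t k * t k) := by
        rw [Finset.mul_sum, Finset.mul_sum]
        exact Finset.sum_congr rfl fun k _ => by rw [hsym 4 k, ht k]; ring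
      rw [h2, ht 4] at hsq
      exact mul_left_cancel₀ hpZ (mul_left_cancel₀ hpZ hsq)
    have h2 : t 4 * t 4 ≤ ∑ k, t k * t k :=
      Finset.single_le_sum (f := fun k => t k * t k) (fun k _ => mul_self_nonneg _)
        (Finset.mem_univ 4)
    rw [← ht4] at h2
    have h3 : 0 ≤ t 4 := by nlinarith [mul_self_nonneg (t 4)]
    have h4 : t 4 ≤ 1 := by nlinarith
    have h5 : t 4 = 0 ∨ t 4 = 1 := by omega
    rcases h5 with h5 | h5
    · left
      exact half d hq hnot P Q ho htop A hA (fun i => by rw [hAB' i]; exact hB i) a ha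
        (by rw [ht 4, h5, mul_zero])
    · right
      refine half d hq hnot Q P ho' (fun y => ?_) B hB (fun i => by rw [hBA' i]; exact hA i) b hb ?_
      · obtain ⟨u, hu, w, hw, h⟩ := htop y
        exact ⟨w, hw, u, hu, by rw [h]; abel⟩
      · have h6 := ht 4
        rw [h5, mul_one] at h6
        linarith

theorem noniso (d e : Dat K) (hth : e.th = d.th) (hD : e.D = d.D) (hne : d.p ≠ e.p)
    (hq : ∀ z : K, IsIntegral ℤ z → ∃ r s : ℤ, 2 * z = r + s * d.th)
    (hnot : ∀ q : ℚ, algebraMap ℚ K q ≠ d.th) (φ ψ : K →+* ℝ) (hψ : ψ d.th = - φ d.th)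
    (hbig : 4 * d.p ^ 2 * e.p ^ 2 < d.D) : ¬ Isometric K (form d) (form e) := by
  rintro ⟨σ, hσ⟩
  have hpd := d.pne
  have hpe := e.pne
  have hdZ : (d.p : ℤ) ≠ 0 := by exact_mod_cast d.hp.ne_zero
  have heZ : (e.p : ℤ) ≠ 0 := by exact_mod_cast e.hp.ne_zero
  have hpol : ∀ x y, form d (σ x) (σ y) = form e x y := fun x y =>
    polar (isLat d) (isLat e).symm σ.toLinearMap hσ x y
  -- image of e.p e_0
  have hn1 : ((form e (pe e 0) (pe e 0) : 𝓞 K) : K) = (e.p : K) ^ 2 := by
    rw [form_pe, pe_apply]; simp; ring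
  have hn2 : ∀ φ : K →+* ℝ, φ (form d (σ (pe e 0)) (σ (pe e 0)) : 𝓞 K) ≤ (e.p : ℝ) ^ 2 := by
    intro φ
    rw [hσ, hn1, map_pow, map_natCast]
  obtain ⟨S, hS⟩ := short_int d hq hnot φ ψ hψ e.p hbig (σ (pe e 0)) (hn2 φ) (hn2 ψ)
  have hT : ∀ j, ∃ T : ℤ, (d.p : ℤ) * S j = e.p * T := by
    intro j
    have hm1 : ((form d (pe d j) (pe d j) : 𝓞 K) : K) = (d.p : K) ^ 2 := by
      rw [form_pe, pe_apply]; simp; ring
    have hσs : form e (σ.symm (pe d j)) (σ.symm (pe d j)) = form d (pe d j) (pe d j) := by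
      rw [← hσ, LinearEquiv.apply_symm_apply]
    have hm2 : ∀ φ : K →+* ℝ, φ (form e (σ.symm (pe d j)) (σ.symm (pe d j)) : 𝓞 K)
        ≤ (d.p : ℝ) ^ 2 := by
      intro φ
      rw [hσs, hm1, map_pow, map_natCast]
    obtain ⟨T, hT⟩ := short_int e (by rw [hth]; exact hq) (by rw [hth]; exact hnot) φ ψ
      (by rw [hth]; exact hψ) d.p (by rw [hD]; calc 4 * e.p ^ 2 * d.p ^ 2 = 4 * d.p ^ 2 * e.p ^ 2 := by ring
                                         _ < d.D := hbig) (σ.symm (pe d j)) (hm2 φ) (hm2 ψ)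
    refine ⟨T 0, ?_⟩
    have h1 : form d (σ (pe e 0)) (pe d j) = form e (pe e 0) (σ.symm (pe d j)) := by
      rw [← hpol, LinearEquiv.apply_symm_apply]
    have h2 : ((form d (σ (pe e 0)) (pe d j) : 𝓞 K) : K)
        = ((form e (pe e 0) (σ.symm (pe d j)) : 𝓞 K) : K) := by rw [h1]
    rw [form_pe, (isLat e).symm, form_pe, hS, hT] at h2
    exact_mod_cast h2
  have hdvd : ∀ j, ∃ t : ℤ, S j = e.p * t := by
    intro j
    obtain ⟨T, hT⟩ := hT j
    have h1 : (e.p : ℤ) ∣ d.p * S j := ⟨T, hT⟩
    have hprime : Prime (e.p : ℤ) := Nat.prime_iff_prime_int.mp e.hp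
    rcases hprime.dvd_or_dvd h1 with h2 | h2
    · exfalso
      have h3 : e.p ∣ d.p := by exact_mod_cast h2
      exact hne ((Nat.prime_dvd_prime_iff_eq e.hp d.hp).mp h3).symm
    · exact h2
  choose t ht using hdvd
  have hsum : ∑ j, t j * t j = 1 := by
    have h1 : ((form d (σ (pe e 0)) (σ (pe e 0)) : 𝓞 K) : K) = (e.p : K) ^ 2 := by rw [hσ, hn1]
    rw [form_apply] at h1
    have h2 : ∑ j, (σ (pe e 0)).1 j * (σ (pe e 0)).1 j = (e.p : K) ^ 2 * ((∑ j, t j * t j : ℤ) : K) := by
      push_cast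
      rw [Finset.mul_sum]
      exact Finset.sum_congr rfl fun j _ => by rw [hS j, ht j]; push_cast; ring
    rw [h2] at h1
    have h3 : ((∑ j, t j * t j : ℤ) : K) = 1 := by
      apply mul_left_cancel₀ (pow_ne_zero 2 hpe)
      rw [h1, mul_one]
    exact_mod_cast h3
  obtain ⟨j, hj⟩ : ∃ j, t j ≠ 0 := by
    by_contra hcon
    push Not at hcon
    simp [hcon] at hsum
  have hone : t j * t j = 1 := by
    apply le_antisymm
    · rw [← hsum]
      exact Finset.single_le_sum (f := fun k => t k * t k) (fun k _ => mul_self_nonneg _)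
        (Finset.mem_univ j)
    · have := mul_self_pos.mpr hj
      omega
  have hoth : ∀ k, k ≠ j → t k = 0 := by
    intro k hk
    have h8 := Finset.add_sum_erase Finset.univ (fun k => t k * t k) (Finset.mem_univ j)
    have h7 : ∑ k ∈ Finset.univ.erase j, t k * t k = 0 := by
      rw [hsum] at h8
      linarith
    have h9 := (Finset.sum_eq_zero_iff_of_nonneg (s := Finset.univ.erase j)
      (f := fun k => t k * t k) (fun i _ => mul_self_nonneg _)).mp h7 k
      (Finset.mem_erase.mpr ⟨hk, Finset.mem_univ k⟩)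
    exact mul_self_eq_zero.mp h9
  -- the vector (e.p t_j) e_j lies in the lattice of d
  have hint := (σ (pe e 0)).2.2
  have hval : ∑ i, (σ (pe e 0)).1 i * d.v i = (e.p : K) * (t j : K) * d.v j := by
    rw [Finset.sum_eq_single j (fun k _ hk => by rw [hS k, ht k, hoth k hk]; simp)
      (fun h => absurd (Finset.mem_univ j) h), hS j, ht j]
    push_cast
    ring
  rw [hval] at hint
  have hint2 : IsIntegral ℤ ((e.p : K) * d.v j / d.p) := by
    have h1 := (intInt (K := K) (t j)).mul hint
    have h2 : (t j : K) * ((e.p : K) * (t j : K) * d.v j / d.p) = (e.p : K) * d.v j / d.p := by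
      have h3 : ((t j * t j : ℤ) : K) = 1 := by rw [hone]; simp
      push_cast at h3
      linear_combination ((e.p : K) * d.v j / d.p) * h3
    rwa [h2] at h1
  have hdprime : Prime (d.p : ℤ) := Nat.prime_iff_prime_int.mp d.hp
  have hnd : ¬ (d.p : ℤ) ∣ e.p := by
    intro h
    have h3 : d.p ∣ e.p := by exact_mod_cast h
    exact hne ((Nat.prime_dvd_prime_iff_eq d.hp e.hp).mp h3)
  have hpq : (d.p : ℚ) ≠ 0 := by exact_mod_cast d.hp.ne_zero
  by_cases hj4 : j = 4
  · subst hj4
    have hv4 : d.v 4 = d.th := rfl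
    rw [hv4] at hint2
    have h1 := hint2.mul d.thInt
    have h2 : (e.p : K) * d.th / d.p * d.th = (((e.p : ℚ) * d.D / d.p : ℚ) : K) := by
      push_cast
      rw [← d.hth]; ring
    rw [h2] at h1
    obtain ⟨z, hz⟩ := int_of_rat h1
    have h3 : (e.p : ℤ) * d.D = d.p * z := by
      have : (e.p : ℚ) * d.D = d.p * z := by rw [hz]; field_simp
      exact_mod_cast this
    rcases hdprime.dvd_or_dvd (⟨z, h3⟩ : (d.p : ℤ) ∣ e.p * d.D) with h4 | h4
    · exact hnd h4
    · exact d.hD (by exact_mod_cast h4)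
  · have hv2 : v2 j = 0 := by
      fin_cases j <;> first | rfl | exact absurd rfl hj4
    rw [d.v_eq j, hv2] at hint2
    have h2 : (e.p : K) * ((d.v1 j : K) + ((0 : ℤ) : K) * d.th) / d.p
        = (((e.p : ℚ) * d.v1 j / d.p : ℚ) : K) := by
      push_cast
      ring
    rw [h2] at hint2
    obtain ⟨z, hz⟩ := int_of_rat hint2
    have h3 : (e.p : ℤ) * d.v1 j = d.p * z := by
      have : (e.p : ℚ) * d.v1 j = d.p * z := by rw [hz]; field_simp
      exact_mod_cast this
    rcases hdprime.dvd_or_dvd (⟨z, h3⟩ : (d.p : ℤ) ∣ e.p * d.v1 j) with h4 | h4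
    · exact hnd h4
    · exact d.v1_not j hj4 h4

end

end Pool.Agent.Lib_helper58.NB
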