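import Mathlib
import Pool.Agent.Lib_helper58.NB.Indec
import Pool.Agent.Lib_helper56.UL.X1
import Pool.Agent.Lib_helper10.LFQ.X2
import Pool.Agent.Lib_helper29.UL.X3
import Pool.Agent.Lib_helper80.ULS.Final

/-!
# Gap of length four, n = 1, over real quadratic fields
-/

open NumberField TensorProduct Pool.Agent.Lib_helper76.UL

namespace Pool.Agent.Lib_helper58.NB

theorem length_four (C : ℕ) : ∃ B : ℕ, ∀ (K : Type) [Field K] [NumberField K] [IsTotallyReal K],
    Module.finrank ℚ K = 2 → ∀ (D : ℕ) (t : K), Squarefree D → B < D → t ^ 2 = (D : K) →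
      U K 1 + (C : ℕ∞) ≤ U K 5 := by
  obtain ⟨B0, hB0⟩ := Pool.Agent.Lib_helper29.UL.primes_or (C + 1)
  refine ⟨4 * (B0 + 1) ^ 4, ?_⟩
  intro K _ _ _ h2 D t hD hBD ht
  have hD1 : 1 < D := by
    have : 1 ≤ (B0 + 1) ^ 4 := Nat.one_le_pow _ _ (by omega)
    omega
  rcases hB0 D (by omega) with h | ⟨P, hinj, hP⟩
  · -- many ramified primes
    have h1 := Pool.Agent.Lib_helper80.ULS.final_explicit K h2 1 5 (by norm_num) D t hD hD1 ht
    refine le_trans ?_ h1
    have h3 : C ≤ (5 - 4 * 1) * 2 ^ (D.primeFactors.card - 1) := by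
      have h4 : C < 2 ^ C := Nat.lt_two_pow_self
      have h5 : 2 ^ C ≤ 2 ^ (D.primeFactors.card - 1) := Nat.pow_le_pow_right (by norm_num)
        (by omega)
      omega
    gcongr
  · -- many neighbours
    have hnot : ∀ q : ℚ, algebraMap ℚ K q ≠ t := by
      intro q hq
      rw [eq_ratCast] at hq
      have h3 : ((q ^ 2 : ℚ) : K) = ((D : ℚ) : K) := by
        push_cast
        rw [hq, ht]
      exact Pool.Agent.Lib_helper10.LFQ.sq_ne D hD hD1 q (by exact_mod_cast h3)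
    have hq := Pool.Agent.Lib_helper10.LFQ.quad_int K h2 D hD hD1 t ht
    obtain ⟨φ, ψ, hψ⟩ := exists_pair h2 ht hnot
    have hdat : ∀ i, ∃ d : Dat K, d.th = t ∧ d.D = D ∧ d.p = P i := by
      intro i
      obtain ⟨hp, h4, h7, hle, hnd⟩ := hP i
      obtain ⟨a, b, ⟨k, hk⟩, ha, hb⟩ :=
        Pool.Agent.Lib_helper56.UL.exists_ab (P i) hp h4 h7 D
      exact ⟨⟨t, D, P i, a, b, k, ht, hp, h7, hk, ha, hb, hnd⟩, rfl, rfl, rfl⟩
    choose d hd1 hd2 hd3 using hdat
    have hle : ∀ i, P i ≤ B0 := fun i => (hP i).2.2.2.1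
    have hbig : ∀ i j, 4 * (P i) ^ 2 * (P j) ^ 2 < D := by
      intro i j
      have h1 : (P i) ^ 2 ≤ (B0 + 1) ^ 2 := Nat.pow_le_pow_left ((hle i).trans (by omega)) 2
      have h3 : (P j) ^ 2 ≤ (B0 + 1) ^ 2 := Nat.pow_le_pow_left ((hle j).trans (by omega)) 2
      calc 4 * (P i) ^ 2 * (P j) ^ 2 ≤ 4 * (B0 + 1) ^ 2 * (B0 + 1) ^ 2 := by gcongr
        _ = 4 * (B0 + 1) ^ 4 := by ring
        _ < D := hBD
    have hqd : ∀ i, ∀ z : K, IsIntegral ℤ z → ∃ r s : ℤ, 2 * z = r + s * (d i).th := by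
      intro i; rw [hd1 i]; exact hq
    have hnd : ∀ i, ∀ q : ℚ, algebraMap ℚ K q ≠ (d i).th := by
      intro i; rw [hd1 i]; exact hnot
    have hψd : ∀ i, ψ (d i).th = - φ (d i).th := by
      intro i; rw [hd1 i]; exact hψ
    let F : Fin (C + 1) → Lat K := fun i => ⟨modu (d i), form (d i), isLat (d i)⟩
    have h1 := Pool.Agent.Lib_helper80.ULS.final_general K h2 1 5 (by norm_num) (C + 1) F
      (fun i => ⟨unimodular (d i), indec (d i) (hqd i) (hnd i) φ ψ (hψd i) (by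
        rw [hd3 i, hd2 i]
        calc 4 * (P i) ^ 4 = 4 * (P i) ^ 2 * (P i) ^ 2 := by ring
          _ < D := hbig i i)⟩)
      (fun i j hij => noniso (d i) (d j) (by rw [hd1, hd1]) (by rw [hd2, hd2])
        (by rw [hd3, hd3]; exact fun h => hij (hinj h)) (hqd i) (hnd i) φ ψ (hψd i)
        (by rw [hd3 i, hd3 j, hd2 i]; exact hbig i j))
    refine le_trans ?_ h1
    have h5 : ∀ i, rk K (F i).L = 5 := fun i => rk_modu (d i)
    have h3 : C ≤ ∑ i, (5 / rk K (F i).L - 4 * 1 / rk K (F i).L) * rk K (F i).L := by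
      simp only [h5]
      simp
      omega
    gcongr

end Pool.Agent.Lib_helper58.NB
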